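import Pool.Agent.Run7.h566.DP.Fam

/-!
# From power saving exponential sums to the digits of almost all members
-/

set_option autoImplicit false

namespace Pool.Agent.Run7.h566.DP

open Finset Filter Topology
open Pool.Agent.H469R2.NK (e norm_e)
open Pool.Agent.R485.Mult (sg abs_sg)

lemma ev_rpow_ge (r K : ℝ) (hr : 0 < r) : ∀ᶠ M : ℕ in atTop, K ≤ (M : ℝ) ^ r :=
  ((tendsto_rpow_atTop hr).comp tendsto_natCast_atTop_atTop).eventually_ge_atTop K

lemma ev_log_le (r K : ℝ) (hr : 0 < r) : ∀ᶠ M : ℕ in atTop, K * Real.log (M : ℝ) ≤ (M : ℝ) ^ r := by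
  have h1 : (fun u : ℝ => K * Real.log u) =o[atTop] (fun u : ℝ => u ^ r) :=
    (isLittleO_log_rpow_atTop hr).const_mul_left K
  have h2 := (h1.comp_tendsto tendsto_natCast_atTop_atTop).bound (c := 1) one_pos
  filter_upwards [h2] with N hN
  simp only [Function.comp, Real.norm_eq_abs, one_mul] at hN
  rw [abs_of_nonneg (a := (N : ℝ) ^ r) (by positivity)] at hN
  exact (le_abs_self _).trans hN

/-- the exponential sums over `m ∈ S M` of the numbers `z w m`, `w` admissible for `M`, at the nonzero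
sums of `D` multiples of powers of `b` with small coefficients and exponents of size `O(log M)` save
a power of `M` -/
def Sav (b : ℕ) (S : ℕ → Finset ℕ) {Z : Type} (adm : ℕ → Z → Prop) (z : Z → ℕ → ℝ) : Prop :=
  ∀ (D : ℕ) (C : ℝ), 0 < C → ∃ c : ℝ, 0 < c ∧ c < 1 ∧ ∃ M0 : ℕ,
    ∀ M : ℕ, M0 ≤ M → ∀ k : Fin D → ℕ, (∀ i, (k i : ℝ) ≤ C * Real.log M) → ∀ lam : Fin D → ℤ,
      (∀ i, |(lam i : ℝ)| ≤ (M : ℝ) ^ c) → ∑ i, lam i * (b : ℤ) ^ (k i) ≠ 0 → ∀ w : Z, adm M w →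
      ‖∑ m ∈ S M, e (((∑ i, lam i * (b : ℤ) ^ (k i) : ℤ) : ℝ) * z w m)‖ ≤ (M : ℝ) ^ (1 - c)

open Classical in
/-- **Almost all members.** -/
theorem glue (B : Finset ℕ) (hB : ∀ b ∈ B, 2 ≤ b) (S : ℕ → Finset ℕ) {Z : Type}
    (adm : ℕ → Z → Prop) (z : Z → ℕ → ℝ) (hS : ∀ r : ℝ, 0 < r → ∀ᶠ M : ℕ in atTop, (M : ℝ) ^ (1 - r) ≤ (S M).card)
    (h : ∀ b ∈ B, Sav b S adm z) (ε δ : ℝ) (hε : 0 < ε) (hδ : 0 < δ) (A : ℕ) :
    ∃ N₀ : ℕ, ∀ N : ℕ, N₀ ≤ N → ∀ M : ℕ, Real.exp (ε * N) ≤ M → ∀ w : Z, adm M w →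
      (((S M).filter (fun m => ¬ Gd B N δ (z w m))).card : ℝ) * (N : ℝ) ^ A ≤ (S M).card := by
  obtain ⟨s, hs, N1, hfam⟩ := fam B hB δ hδ A
  -- one base
  have hbase : ∀ b : ℕ, ∃ N2 : ℕ, b ∈ B → ∀ N : ℕ, N2 ≤ N → ∀ M : ℕ, Real.exp (ε * N) ≤ M →
      ∀ w : Z, adm M w → ∀ h : ℕ, 1 ≤ h → h ≤ N → ∀ p : Fin (2 * s) → ℕ, (∀ j, p j ≤ N) →
      ∑ j : Fin (2 * s), sg j * (b : ℤ) ^ (p j) ≠ 0 →
      ‖∑ m ∈ S M, e (h * z w m * ((∑ j : Fin (2 * s), sg j * (b : ℤ) ^ (p j) : ℤ) : ℝ))‖ ≤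
        (S M).card / (N : ℝ) ^ s := by
    intro b
    by_cases hb : b ∈ B
    swap
    · exact ⟨0, fun h => absurd h hb⟩
    obtain ⟨c, hc0, hc1, M0, hc⟩ := h b hb (2 * s) (1 / ε) (by positivity)
    obtain ⟨M1, hM1⟩ := eventually_atTop.1 ((hS (c / 2) (by positivity)).and
      ((ev_log_le (c / (2 * s)) (1 / ε) (by positivity)).and
        ((ev_log_le c (1 / ε) hc0).and (eventually_ge_atTop 1))))
    have hN2 : ∀ᶠ N : ℕ in atTop, ((max M0 M1 : ℕ) : ℝ) ≤ Real.exp (ε * N) := by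
      have h1 : Tendsto (fun N : ℕ => Real.exp (ε * (N : ℝ))) atTop atTop :=
        Real.tendsto_exp_atTop.comp
          (tendsto_natCast_atTop_atTop.const_mul_atTop hε)
      exact h1.eventually_ge_atTop _
    obtain ⟨N2, hN2'⟩ := eventually_atTop.1 (hN2.and (eventually_ge_atTop 1))
    refine ⟨N2, fun _ N hN M hM w hw h hh1 hh2 p hp hne => ?_⟩
    obtain ⟨hN3, hN4⟩ := hN2' N hN
    have hMM : max M0 M1 ≤ M := by exact_mod_cast hN3.trans hM
    obtain ⟨h1, h2, h3, h4⟩ := hM1 M ((le_max_right _ _).trans hMM)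
    have hMR : (1 : ℝ) ≤ M := by exact_mod_cast h4
    have hMpos : (0 : ℝ) < M := by linarith
    have hNlog : (N : ℝ) ≤ 1 / ε * Real.log M := by
      have := Real.log_le_log (Real.exp_pos _) hM
      rw [Real.log_exp] at this
      rw [one_div, ← div_eq_inv_mul, le_div_iff₀ hε]
      linarith
    have hNR : (1 : ℝ) ≤ N := by exact_mod_cast hN4
    have h5 := hc M ((le_max_left _ _).trans hMM) p (fun i => by
      have : (p i : ℝ) ≤ N := by exact_mod_cast hp i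
      linarith) (fun j => sg j * h) (fun j => by
      have h6 : |((sg j * (h : ℤ) : ℤ) : ℝ)| = h := by
        rw [← Int.cast_abs, abs_mul, abs_sg, one_mul]
        have h6 : |(h : ℤ)| = h := abs_of_nonneg (by positivity)
        rw [h6]
        push_cast
        rfl
      rw [h6]
      have : (h : ℝ) ≤ N := by exact_mod_cast hh2
      linarith) (by
      have h6 : ∑ j : Fin (2 * s), sg j * (h : ℤ) * (b : ℤ) ^ (p j) =
          h * ∑ j : Fin (2 * s), sg j * (b : ℤ) ^ (p j) := by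
        rw [mul_sum]
        exact sum_congr rfl fun j _ => by ring
      rw [h6]
      exact mul_ne_zero (by exact_mod_cast (by omega : h ≠ 0)) hne) w hw
    have h6 : ∑ j : Fin (2 * s), sg j * (h : ℤ) * (b : ℤ) ^ (p j) =
        h * ∑ j : Fin (2 * s), sg j * (b : ℤ) ^ (p j) := by
      rw [mul_sum]
      exact sum_congr rfl fun j _ => by ring
    rw [h6] at h5
    have h7 : ∑ m ∈ S M, e (h * z w m * ((∑ j : Fin (2 * s), sg j * (b : ℤ) ^ (p j) : ℤ) : ℝ)) =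
        ∑ m ∈ S M, e (((h * ∑ j : Fin (2 * s), sg j * (b : ℤ) ^ (p j) : ℤ) : ℝ) * z w m) := by
      refine sum_congr rfl fun m _ => ?_
      congr 1
      push_cast
      ring
    rw [h7]
    refine h5.trans ?_
    rw [le_div_iff₀ (by positivity)]
    have hs0 : (0 : ℝ) < s := by exact_mod_cast hs
    have h8 : (N : ℝ) ^ s ≤ (M : ℝ) ^ (c / 2) := by
      calc (N : ℝ) ^ s ≤ ((M : ℝ) ^ (c / (2 * s))) ^ s := by
            gcongr
            exact hNlog.trans h2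
        _ = (M : ℝ) ^ (c / 2) := by
            rw [← Real.rpow_natCast, ← Real.rpow_mul hMpos.le]
            congr 1
            field_simp
    calc (M : ℝ) ^ (1 - c) * (N : ℝ) ^ s ≤ (M : ℝ) ^ (1 - c) * (M : ℝ) ^ (c / 2) := by gcongr
      _ = (M : ℝ) ^ (1 - c / 2) := by
          rw [← Real.rpow_add hMpos]
          congr 1
          ring
      _ ≤ _ := h1
  choose N2 hN2 using hbase
  refine ⟨max N1 (B.sup N2), fun N hN M hM w hw => ?_⟩
  refine hfam N ((le_max_left _ _).trans hN) (S M) (z w) ?_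
  intro b hbB h hh1 hh2 p hp hne
  have h1 : N2 b ≤ N := (Finset.le_sup (f := N2) hbB).trans ((le_max_right _ _).trans hN)
  exact hN2 b hbB N h1 M hM w hw h hh1 hh2 p hp hne

end Pool.Agent.Run7.h566.DP
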