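import Pool.Agent.Run7.h566.DP.PrimeS

/-!
# The digits of the multiples `p ξ`, `p` prime, of an algebraic irrational number

Let `ξ` be an irrational algebraic number, for instance `√2`, and `A > 0`. For almost all primes
`p ≤ M` the number `y + p ξ` is normal up to the `N`-th digit, `N ≤ A log M`, simultaneously in all
bases `b ≤ B`, with the discrepancy `N ^ (-1/2 + δ)` of a random number; here `y` is an arbitrary real
number.

Proof. The `2s`-th moment over `p` of `∑_{i ≤ n} e(h (y + p ξ) b ^ i)` is expanded. By the subspace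
theorem the numbers `h ξ ∑_j ± b ^ (i_j)` have no good rational approximations with denominators up to
a small power of `M`, unless the sum vanishes, and Vinogradov's theorem bounds the sums over `p`.
-/

set_option autoImplicit false

namespace Pool.Agent.Run7.h566.DP.PrimeR

open Finset

/-- for every `n ≤ N` the number of `i` with `1 ≤ i ≤ n` such that the fractional part of `z b^i` lies
in `[α, β)` differs from `(β - α) n` by at most `E`, for all intervals `[α, β) ⊆ [0, 1)` -/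
def DiscrepancyUpTo (b N : ℕ) (E z : ℝ) : Prop :=
  ∀ n : ℕ, n ≤ N → ∀ α β : ℝ, 0 ≤ α → α < β → β ≤ 1 →
    |(({i : ℕ | 1 ≤ i ∧ i ≤ n ∧ α ≤ Int.fract (z * (b : ℝ) ^ i) ∧
      Int.fract (z * (b : ℝ) ^ i) < β}.ncard : ℕ) : ℝ) - (β - α) * n| ≤ E

/-- Let `ξ` be an irrational algebraic number (for instance `√2`), `B ≥ 2`, `ε, δ > 0` and `A` be
arbitrary.
(1) For all large `N`, for all real `y` and all `M ≥ exp (ε N)`: for all primes `p ≤ M`, but at most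
`π(M) / N ^ A` of them, the number `y + p ξ` has in all bases `b ≤ B` the discrepancy (not
normalized) at most `N ^ (1 / 2 + δ)` up to the `n`-th digit, for all `n ≤ N`.
(2) For all large `N` there is a prime `p ≤ exp (ε N)` such that `p ξ` has this property. -/
theorem result (ξ : ℝ) (halg : IsAlgebraic ℚ ξ) (hirr : Irrational ξ) (B : ℕ) (ε δ : ℝ)
    (hε : 0 < ε) (hδ : 0 < δ) :
    (∀ A : ℕ, ∃ N₀ : ℕ, ∀ N : ℕ, N₀ ≤ N → ∀ (y : ℝ) (M : ℕ), Real.exp (ε * N) ≤ M →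
      (({p : ℕ | p.Prime ∧ p ≤ M ∧ ¬ ∀ b : ℕ, 2 ≤ b → b ≤ B →
        DiscrepancyUpTo b N ((N : ℝ) ^ (1 / 2 + δ)) (y + p * ξ)}.ncard : ℕ) : ℝ) ≤
          (({p : ℕ | p.Prime ∧ p ≤ M}.ncard : ℕ) : ℝ) / (N : ℝ) ^ A) ∧
    (∃ N₀ : ℕ, ∀ N : ℕ, N₀ ≤ N → ∃ p : ℕ, p.Prime ∧ (p : ℝ) ≤ Real.exp (ε * N) ∧
      ∀ b : ℕ, 2 ≤ b → b ≤ B → DiscrepancyUpTo b N ((N : ℝ) ^ (1 / 2 + δ)) (p * ξ)) := by
  classical
  have hdef : ∀ (N : ℕ) (z : ℝ), Pool.Agent.Run7.h566.DP.Gd (Icc 2 B) N δ z ↔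
      ∀ b : ℕ, 2 ≤ b → b ≤ B → DiscrepancyUpTo b N ((N : ℝ) ^ (1 / 2 + δ)) z := by
    intro N z
    unfold DiscrepancyUpTo Pool.Agent.Run7.h566.DP.Gd
    simp only [mem_Icc, and_imp]
    refine forall_congr' fun b => imp_congr_right fun _ => imp_congr_right fun _ =>
      forall_congr' fun n => imp_congr_right fun _ => forall_congr' fun α =>
      forall_congr' fun β => imp_congr_right fun _ => imp_congr_right fun _ =>
        imp_congr_right fun _ => ?_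
    rw [← Set.ncard_coe_finset]
    have : {i : ℕ | 1 ≤ i ∧ i ≤ n ∧ α ≤ Int.fract (z * (b : ℝ) ^ i) ∧
        Int.fract (z * (b : ℝ) ^ i) < β} = (((Icc 1 n).filter (fun i : ℕ =>
        α ≤ Int.fract (z * (b : ℝ) ^ i) ∧ Int.fract (z * (b : ℝ) ^ i) < β) : Finset ℕ) : Set ℕ) := by
      ext i
      simp [and_assoc]
    rw [this]
  have hpr : ∀ M : ℕ, {p : ℕ | p.Prime ∧ p ≤ M} =
      ((Pool.Agent.Run7.h566.DP.pr M : Finset ℕ) : Set ℕ) := by
    intro M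
    ext p
    unfold Pool.Agent.Run7.h566.DP.pr
    simp only [Set.mem_ofPred_eq, coe_filter, mem_Icc]
    constructor
    · rintro ⟨h1, h2⟩
      exact ⟨⟨h1.one_lt.le, h2⟩, h1⟩
    · rintro ⟨⟨_, h2⟩, h1⟩
      exact ⟨h1, h2⟩
  have part1 : ∀ (η : ℝ), 0 < η → ∀ A : ℕ, ∃ N₀ : ℕ, ∀ N : ℕ, N₀ ≤ N → ∀ (y : ℝ) (M : ℕ),
      Real.exp (η * N) ≤ M →
      (({p : ℕ | p.Prime ∧ p ≤ M ∧ ¬ ∀ b : ℕ, 2 ≤ b → b ≤ B →
        DiscrepancyUpTo b N ((N : ℝ) ^ (1 / 2 + δ)) (y + p * ξ)}.ncard : ℕ) : ℝ) ≤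
          (({p : ℕ | p.Prime ∧ p ≤ M}.ncard : ℕ) : ℝ) / (N : ℝ) ^ A := by
    intro η hη A
    obtain ⟨N₀, h⟩ := Pool.Agent.Run7.h566.DP.glue (Icc 2 B) (fun b hb => (mem_Icc.1 hb).1)
      Pool.Agent.Run7.h566.DP.pr (fun _ _ => True)
      (fun (y : ℝ) (p : ℕ) => y + p * ξ) Pool.Agent.Run7.h566.DP.pr_card
      (fun b hb => Pool.Agent.Run7.h566.DP.prime_sav ξ halg hirr b (mem_Icc.1 hb).1) η δ hη hδ A
    refine ⟨max N₀ 1, fun N hN y M hM => ?_⟩
    have hN1 : (1 : ℝ) ≤ N := by exact_mod_cast (le_max_right _ _).trans hN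
    have h1 := h N ((le_max_left _ _).trans hN) M hM y trivial
    rw [le_div_iff₀ (by positivity), hpr, Set.ncard_coe_finset]
    refine le_trans (mul_le_mul_of_nonneg_right ?_ (by positivity)) h1
    refine Nat.cast_le.2 ?_
    rw [← Set.ncard_coe_finset]
    refine Set.ncard_le_ncard ?_ (finite_toSet _)
    rintro p ⟨hp0, hp1, hp2⟩
    rw [mem_coe, mem_filter]
    refine ⟨?_, ?_⟩
    · have : p ∈ {p : ℕ | p.Prime ∧ p ≤ M} := ⟨hp0, hp1⟩
      rw [hpr] at this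
      exact mem_coe.1 this
    · rw [hdef]
      exact hp2
  refine ⟨part1 ε hε, ?_⟩
  obtain ⟨N₀, h⟩ := part1 (ε / 2) (by positivity) 1
  -- an integer between `exp (ε N / 2)` and `exp (ε N)`
  have hlarge : ∀ᶠ N : ℕ in Filter.atTop, Real.exp (ε / 2 * N) + 1 ≤ Real.exp (ε * N) ∧
      (2 : ℝ) ≤ Real.exp (ε / 2 * N) := by
    have h1 : Filter.Tendsto (fun N : ℕ => Real.exp (ε / 2 * (N : ℝ))) Filter.atTop Filter.atTop :=
      Real.tendsto_exp_atTop.comp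
        (tendsto_natCast_atTop_atTop.const_mul_atTop (by positivity))
    filter_upwards [h1.eventually_ge_atTop 2] with N hN
    refine ⟨?_, hN⟩
    have e1 : Real.exp (ε * N) = Real.exp (ε / 2 * N) * Real.exp (ε / 2 * N) := by
      rw [← Real.exp_add]
      congr 1
      ring
    rw [e1]
    nlinarith
  obtain ⟨N1, hN1⟩ := Filter.eventually_atTop.1 hlarge
  refine ⟨max (max N₀ N1) 2, fun N hN => ?_⟩
  obtain ⟨h2, h3⟩ := hN1 N (((le_max_right _ _).trans (le_max_left _ _)).trans hN)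
  have hN2 : 2 ≤ N := (le_max_right _ _).trans hN
  set M : ℕ := ⌊Real.exp (ε * N)⌋₊ with hM
  have hM1 : Real.exp (ε / 2 * N) ≤ M := by
    have := Nat.lt_floor_add_one (Real.exp (ε * N))
    rw [← hM] at this
    linarith
  have hM2 : (M : ℝ) ≤ Real.exp (ε * N) := Nat.floor_le (Real.exp_pos _).le
  have h4 := h N (((le_max_left _ _).trans (le_max_left _ _)).trans hN) 0 M hM1
  by_contra hcon
  push Not at hcon
  have h5 : {p : ℕ | p.Prime ∧ p ≤ M ∧ ¬ ∀ b : ℕ, 2 ≤ b → b ≤ B →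
        DiscrepancyUpTo b N ((N : ℝ) ^ (1 / 2 + δ)) (0 + p * ξ)} = {p : ℕ | p.Prime ∧ p ≤ M} := by
    ext p
    constructor
    · rintro ⟨h1, h2, _⟩
      exact ⟨h1, h2⟩
    · rintro ⟨h1, h2⟩
      refine ⟨h1, h2, ?_⟩
      rw [zero_add]
      have h6 : (p : ℝ) ≤ Real.exp (ε * N) := le_trans (by exact_mod_cast h2) hM2
      obtain ⟨b, hb1, hb2, hb3⟩ := hcon p h1 h6
      intro hall
      exact hb3 (hall b hb1 hb2)
  rw [h5] at h4
  have h6 : 0 < (({p : ℕ | p.Prime ∧ p ≤ M}.ncard : ℕ) : ℝ) := by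
    rw [Nat.cast_pos, hpr, Set.ncard_coe_finset, card_pos]
    refine ⟨2, ?_⟩
    have : 2 ∈ {p : ℕ | p.Prime ∧ p ≤ M} := ⟨Nat.prime_two, by exact_mod_cast h3.trans hM1⟩
    rw [hpr] at this
    exact mem_coe.1 this
  rw [pow_one, le_div_iff₀ (by positivity)] at h4
  have h7 : (2 : ℝ) ≤ N := by exact_mod_cast hN2
  nlinarith

end Pool.Agent.Run7.h566.DP.PrimeR
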