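import Pool.Agent.R485.Mult.Disc

/-!
# Digits of almost all members of a finite family of real numbers

The moment method of `Pool.Agent.R485.Mult` for an arbitrary finite family of real numbers: if the
exponential sums over the family at the nonzero integers `h ∑ ± b ^ (p_j)` are small, then almost all
members of the family have the discrepancy of a random number.
-/

set_option autoImplicit false

namespace Pool.Agent.Run7.h566.DP

open Finset Filter Topology
open Pool.Agent.H469R2.NK (e norm_e e_add e_zero conj_e)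
open Pool.Agent.R485.Mult

/-- the moments for a finite family -/
theorem moment_fam (b : ℕ) (hb : 2 ≤ b) (s : ℕ) (hs : 1 ≤ s) {ι : Type} (S : Finset ι)
    (z : ι → ℝ) (h n N : ℕ) (hn : n ≤ N) (R : ℝ) (hR : 0 ≤ R)
    (hE : ∀ p : Fin (2 * s) → ℕ, (∀ j, p j ≤ N) →
      ∑ j : Fin (2 * s), sg j * (b : ℤ) ^ (p j) ≠ 0 →
      ‖∑ i ∈ S, e (h * z i * ((∑ j : Fin (2 * s), sg j * (b : ℤ) ^ (p j) : ℤ) : ℝ))‖ ≤ R) :
    ∑ i ∈ S, ‖∑ k ∈ Icc 1 n, e (h * z i * (b : ℝ) ^ k)‖ ^ (2 * s) ≤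
      S.card * (s ^ (2 * s) * (2 * (2 * s) + 1) ^ (2 * s) * N ^ s : ℕ) + (N : ℝ) ^ (2 * s) * R := by
  classical
  set K : (Fin (2 * s) → ℕ) → ℤ := fun p => ∑ j : Fin (2 * s), sg j * (b : ℤ) ^ (p j) with hK
  set PP := Fintype.piFinset (fun _ : Fin (2 * s) => Icc 1 n) with hPP
  have h1 : ((∑ i ∈ S, ‖∑ k ∈ Icc 1 n, e (h * z i * (b : ℝ) ^ k)‖ ^ (2 * s) : ℝ) : ℂ) =
      ∑ p ∈ PP, ∑ i ∈ S, e (h * z i * (K p : ℝ)) := by
    rw [Complex.ofReal_sum, sum_comm]
    refine sum_congr rfl fun m _ => ?_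
    rw [pow_expand]
  have h2 : ∑ i ∈ S, ‖∑ k ∈ Icc 1 n, e (h * z i * (b : ℝ) ^ k)‖ ^ (2 * s) =
      ‖∑ p ∈ PP, ∑ i ∈ S, e (h * z i * (K p : ℝ))‖ := by
    rw [← h1, Complex.norm_real, Real.norm_eq_abs, abs_of_nonneg]
    exact sum_nonneg fun m _ => by positivity
  rw [h2]
  have h3 : ∀ p ∈ PP, ‖∑ i ∈ S, e (h * z i * (K p : ℝ))‖ ≤
      (if K p = 0 then (S.card : ℝ) else 0) + R := by
    intro p hp
    split_ifs with hp0
    · refine (norm_sum_le _ _).trans ?_
      rw [sum_congr rfl fun m _ => norm_e _]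
      simpa using hR
    · rw [zero_add]
      refine hE p (fun i => ?_) hp0
      have := (Fintype.mem_piFinset.1 hp) i
      rw [mem_Icc] at this
      omega
  refine (norm_sum_le _ _).trans ((sum_le_sum h3).trans ?_)
  rw [sum_add_distrib, ← sum_filter, sum_const, sum_const, nsmul_eq_mul, nsmul_eq_mul]
  apply add_le_add
  · rw [mul_comm]
    apply mul_le_mul_of_nonneg_left _ (Nat.cast_nonneg _)
    have h7 := count_vanish b hb s hs (fun j => sg j) (fun j => abs_sg j) n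
    refine (Nat.cast_le.2 h7).trans ?_
    exact_mod_cast Nat.mul_le_mul_left _ (Nat.pow_le_pow_left hn s)
  · apply mul_le_mul_of_nonneg_right _ hR
    rw [hPP, Fintype.card_piFinset]
    simp only [Nat.card_Icc, Nat.add_sub_cancel, prod_const, card_univ, Fintype.card_fin]
    push_cast
    exact pow_le_pow_left₀ (Nat.cast_nonneg _) (by exact_mod_cast hn) _

/-- all the discrepancies of the first `N` digits of `z` in the bases of `B` are at most
`N ^ (1 / 2 + δ)` -/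
def Gd (B : Finset ℕ) (N : ℕ) (δ z : ℝ) : Prop := ∀ b ∈ B, ∀ n : ℕ, n ≤ N → ∀ α β : ℝ,
  0 ≤ α → α < β → β ≤ 1 →
    |(((Icc 1 n).filter (fun i : ℕ => α ≤ Int.fract (z * (b : ℝ) ^ i) ∧
      Int.fract (z * (b : ℝ) ^ i) < β)).card : ℝ) - (β - α) * n| ≤ (N : ℝ) ^ (1 / 2 + δ)

open Classical in
/-- **Almost all members of a family.** -/
theorem fam (B : Finset ℕ) (hB : ∀ b ∈ B, 2 ≤ b) (δ : ℝ) (hδ : 0 < δ) (A : ℕ) :
    ∃ s : ℕ, 1 ≤ s ∧ ∃ N₀ : ℕ, ∀ N : ℕ, N₀ ≤ N → ∀ {ι : Type} (S : Finset ι) (z : ι → ℝ),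
    (∀ b ∈ B, ∀ h : ℕ, 1 ≤ h → h ≤ N → ∀ p : Fin (2 * s) → ℕ, (∀ j, p j ≤ N) →
      ∑ j : Fin (2 * s), sg j * (b : ℤ) ^ (p j) ≠ 0 →
      ‖∑ i ∈ S, e (h * z i * ((∑ j : Fin (2 * s), sg j * (b : ℤ) ^ (p j) : ℤ) : ℝ))‖ ≤
        S.card / (N : ℝ) ^ s) →
    ((S.filter (fun i => ¬ Gd B N δ (z i))).card : ℝ) * (N : ℝ) ^ A ≤ S.card := by
  set s : ℕ := max 1 ⌈((A : ℝ) + 3) / δ⌉₊ with hs
  have hs1 : 1 ≤ s := le_max_left _ _
  have hsδ : (A : ℝ) + 3 ≤ s * δ := by
    have h0 : ⌈((A : ℝ) + 3) / δ⌉₊ ≤ s := le_max_right _ _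
    have h1 : ((A : ℝ) + 3) / δ ≤ s := (Nat.le_ceil _).trans (Nat.cast_le.2 h0)
    rwa [div_le_iff₀ hδ] at h1
  set C : ℕ := s ^ (2 * s) * (2 * (2 * s) + 1) ^ (2 * s) + 1 with hC
  have hl2 : ∀ᶠ N : ℕ in atTop, 6 + 2 * Real.log N ≤ (N : ℝ) ^ (δ / 2) := by
    have h1 : (fun u : ℝ => 6 + 2 * Real.log u) =o[atTop] (fun u : ℝ => u ^ (δ / 2)) := by
      apply Asymptotics.IsLittleO.add
      · exact Asymptotics.isLittleO_const_left.2 (Or.inr (by
          refine tendsto_norm_atTop_atTop.comp (tendsto_rpow_atTop (by positivity))))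
      · exact (isLittleO_log_rpow_atTop (by positivity)).const_mul_left 2
    have h2 := (h1.comp_tendsto tendsto_natCast_atTop_atTop).bound (c := 1) one_pos
    filter_upwards [h2, eventually_ge_atTop 1] with N hN hN1
    simp only [Function.comp, Real.norm_eq_abs, one_mul] at hN
    have hN1' : (1 : ℝ) ≤ N := by exact_mod_cast hN1
    rw [abs_of_nonneg (a := (N : ℝ) ^ (δ / 2)) (by positivity)] at hN
    exact (le_abs_self _).trans hN
  obtain ⟨N2, hN2⟩ := eventually_atTop.1 hl2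
  refine ⟨s, hs1, max N2 (max 1 (2 * B.card * C)), fun N hN ι S z hSum => ?_⟩
  have hNc := hN2 N ((le_max_left _ _).trans hN)
  have hNd : 1 ≤ N := ((le_max_left _ _).trans (le_max_right _ _)).trans hN
  have hNe : 2 * B.card * C ≤ N := ((le_max_right _ _).trans (le_max_right _ _)).trans hN
  have hNR : (1 : ℝ) ≤ N := by exact_mod_cast hNd
  have hN0 : (0 : ℝ) < N := by linarith
  set T : ℝ := (N : ℝ) ^ (1 / 2 + δ / 2) with hTd
  have hT0 : 0 < T := Real.rpow_pos_of_pos hN0 _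
  have hTs : T ^ (2 * s) = (N : ℝ) ^ s * (N : ℝ) ^ (s * δ) := by
    rw [hTd, ← Real.rpow_natCast, ← Real.rpow_mul hN0.le, ← Real.rpow_natCast (N : ℝ) s,
      ← Real.rpow_add hN0]
    congr 1
    push_cast
    ring
  have hTs2 : (N : ℝ) ^ s * (N : ℝ) ^ (A + 3) ≤ T ^ (2 * s) := by
    rw [hTs]
    apply mul_le_mul_of_nonneg_left _ (by positivity)
    rw [← Real.rpow_natCast]
    apply Real.rpow_le_rpow_of_exponent_le hNR
    push_cast
    exact hsδ
  have hM0 : (0 : ℝ) ≤ S.card := Nat.cast_nonneg _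
  -- the exceptional sets
  set W : ℕ → ℕ → ℕ → ι → ℂ := fun b h n i =>
    ∑ k ∈ Icc 1 n, e (h * z i * (b : ℝ) ^ k) with hW
  set E : ℕ → ℕ → ℕ → Finset ι := fun b h n => S.filter (fun i => T < ‖W b h n i‖) with hE
  have hEc : ∀ b ∈ B, ∀ h ∈ Icc 1 N, ∀ n ∈ range (N + 1),
      ((E b h n).card : ℝ) ≤ S.card * C / N ^ (A + 3) := by
    intro b hb h hh n hn
    rw [mem_Icc] at hh
    rw [mem_range] at hn
    have h1 := moment_fam b (hB b hb) s hs1 S z h n N (by omega) (S.card / (N : ℝ) ^ s)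
      (by positivity) (fun p hp hp0 => hSum b hb h hh.1 hh.2 p hp hp0)
    have h2 : ((E b h n).card : ℝ) * T ^ (2 * s) ≤
        ∑ i ∈ S, ‖∑ k ∈ Icc 1 n, e (h * z i * (b : ℝ) ^ k)‖ ^ (2 * s) := by
      calc ((E b h n).card : ℝ) * T ^ (2 * s) = ∑ m ∈ E b h n, T ^ (2 * s) := by
            rw [sum_const, nsmul_eq_mul]
        _ ≤ ∑ m ∈ E b h n, ‖W b h n m‖ ^ (2 * s) := by
            refine sum_le_sum fun m hm => ?_
            exact pow_le_pow_left₀ hT0.le (mem_filter.1 hm).2.le _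
        _ ≤ ∑ m ∈ S, ‖W b h n m‖ ^ (2 * s) :=
            sum_le_sum_of_subset_of_nonneg (filter_subset _ _) fun m _ _ => by positivity
    have h3 : (N : ℝ) ^ (2 * s) * (S.card / (N : ℝ) ^ s) = S.card * (N : ℝ) ^ s := by
      have e2 : (N : ℝ) ^ (2 * s) = N ^ s * N ^ s := by ring
      have e3 : (N : ℝ) ^ s ≠ 0 := by positivity
      rw [e2]
      field_simp
    rw [h3] at h1
    have h4 : ((E b h n).card : ℝ) * ((N : ℝ) ^ s * (N : ℝ) ^ (A + 3)) ≤ S.card * C * N ^ s := by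
      refine (mul_le_mul_of_nonneg_left hTs2 (Nat.cast_nonneg _)).trans (h2.trans (h1.trans ?_))
      rw [hC]
      push_cast
      apply le_of_eq
      ring
    rw [le_div_iff₀ (by positivity)]
    have h5 : ((E b h n).card : ℝ) * (N : ℝ) ^ (A + 3) * N ^ s ≤ S.card * C * N ^ s := by linarith
    exact le_of_mul_le_mul_right h5 (by positivity)
  set U : Finset ι := B.biUnion fun b => (Icc 1 N).biUnion fun h =>
    (range (N + 1)).biUnion fun n => E b h n with hU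
  have hUc : (U.card : ℝ) ≤ B.card * (N * ((N + 1) * (S.card * C / N ^ (A + 3)))) := by
    have hq : 0 ≤ (S.card : ℝ) * C / N ^ (A + 3) := by positivity
    have h1 : ∀ b ∈ B, ∀ h ∈ Icc 1 N,
        ((((range (N + 1)).biUnion fun n => E b h n).card : ℕ) : ℝ) ≤
          (N + 1) * (S.card * C / N ^ (A + 3)) := by
      intro b hb h hh
      refine (Nat.cast_le.2 card_biUnion_le).trans ?_
      push_cast
      refine (sum_le_sum (hEc b hb h hh)).trans ?_
      rw [sum_const, card_range, nsmul_eq_mul]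
      push_cast
      exact le_rfl
    have h2 : ∀ b ∈ B, ((((Icc 1 N).biUnion fun h =>
        (range (N + 1)).biUnion fun n => E b h n).card : ℕ) : ℝ) ≤
          N * ((N + 1) * (S.card * C / N ^ (A + 3))) := by
      intro b hb
      refine (Nat.cast_le.2 card_biUnion_le).trans ?_
      push_cast
      refine (sum_le_sum (h1 b hb)).trans ?_
      rw [sum_const, Nat.card_Icc, nsmul_eq_mul, Nat.add_sub_cancel]
    refine (Nat.cast_le.2 card_biUnion_le).trans ?_
    push_cast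
    refine (sum_le_sum h2).trans ?_
    rw [sum_const, nsmul_eq_mul]
  have hfin : (U.card : ℝ) * N ^ A ≤ S.card := by
    have h1 : (B.card : ℝ) * (N * ((N + 1) * (S.card * C / N ^ (A + 3)))) * N ^ A =
        S.card * (B.card * C * (N + 1) / N ^ 2) := by
      field_simp
      ring
    have h2 : (B.card : ℝ) * C * (N + 1) / N ^ 2 ≤ 1 := by
      rw [div_le_one (by positivity)]
      have h3 : 2 * (B.card : ℝ) * C ≤ N := by exact_mod_cast hNe
      have h4 : (0 : ℝ) ≤ B.card * C := by positivity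
      nlinarith
    calc (U.card : ℝ) * N ^ A ≤
          (B.card : ℝ) * (N * ((N + 1) * (S.card * C / N ^ (A + 3)))) * N ^ A := by
          exact mul_le_mul_of_nonneg_right hUc (by positivity)
      _ = S.card * (B.card * C * (N + 1) / N ^ 2) := h1
      _ ≤ S.card * 1 := mul_le_mul_of_nonneg_left h2 hM0
      _ = S.card := mul_one _
  refine le_trans ?_ hfin
  apply mul_le_mul_of_nonneg_right _ (by positivity)
  refine Nat.cast_le.2 (card_le_card ?_)
  intro m hm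
  rw [mem_filter] at hm
  obtain ⟨hm, hbad⟩ := hm
  by_contra hmU
  apply hbad
  intro b hbB n hn α β h0 h1 h2
  have hT : ∀ h : ℕ, 1 ≤ h → h ≤ N → ‖∑ i ∈ Icc 1 n, e (h * (z m * (b : ℝ) ^ i))‖ ≤ T := by
    intro h hh1 hh2
    by_contra hcon
    push Not at hcon
    apply hmU
    rw [hU, mem_biUnion]
    refine ⟨b, hbB, ?_⟩
    rw [mem_biUnion]
    refine ⟨h, mem_Icc.2 ⟨hh1, hh2⟩, ?_⟩
    rw [mem_biUnion]
    refine ⟨n, mem_range.2 (by omega), ?_⟩
    rw [hE]
    simp only [mem_filter]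
    refine ⟨hm, ?_⟩
    rw [hW]
    simp only
    have : ∀ i : ℕ, (h : ℝ) * (z m * (b : ℝ) ^ i) = h * z m * (b : ℝ) ^ i := fun i => by ring
    simp_rw [this] at hcon
    exact hcon
  have h5 := dev_bound (fun i => z m * (b : ℝ) ^ i) n N hn hNd T hT α β h0 h1 h2
  refine h5.trans ?_
  have h6 : Real.sqrt N ≤ T := by
    rw [Real.sqrt_eq_rpow, hTd]
    exact Real.rpow_le_rpow_of_exponent_le hNR (by linarith)
  have h7 : (N : ℝ) ^ (1 / 2 + δ) = T * (N : ℝ) ^ (δ / 2) := by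
    rw [hTd, ← Real.rpow_add hN0]
    congr 1
    ring
  rw [h7]
  have h8 := mul_le_mul_of_nonneg_left hNc hT0.le
  nlinarith

end Pool.Agent.Run7.h566.DP
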