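import Pool.Agent.Run7.h566.DP.PolyS

/-!
# The digits of the values of a polynomial

Let `F` be a real polynomial whose highest irrational coefficient (constant coefficient excluded) is
algebraic, for instance `√2 X` or `√2 X ^ 2 + π X + e`, or any polynomial `F` with real algebraic
coefficients such that `F - F(0)` does not have rational coefficients. Let `A > 0`. Almost all of the
numbers `F(m)`, `m < M`, are normal up to the `N`-th digit, `N ≤ A log M`, simultaneously in all
bases `b ≤ B`, with the discrepancy `N ^ (-1/2 + δ)` of a random number.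

Proof. The `2s`-th moment over `m` of `∑_{i ≤ n} e(h F(m) b ^ i)` is expanded. After a splitting into
residue classes the rational coefficients above the irrational one disappear, and Weyl's inequality
with the subspace theorem bounds the sums over `m` with the frequencies `h ∑_j ± b ^ (i_j) ≠ 0`.
-/

set_option autoImplicit false

namespace Pool.Agent.Run7.h566.DP.PolyR

open Finset Polynomial

/-- for every `n ≤ N` the number of `i` with `1 ≤ i ≤ n` such that the fractional part of `z b^i` lies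
in `[α, β)` differs from `(β - α) n` by at most `E`, for all intervals `[α, β) ⊆ [0, 1)` -/
def DiscrepancyUpTo (b N : ℕ) (E z : ℝ) : Prop :=
  ∀ n : ℕ, n ≤ N → ∀ α β : ℝ, 0 ≤ α → α < β → β ≤ 1 →
    |(({i : ℕ | 1 ≤ i ∧ i ≤ n ∧ α ≤ Int.fract (z * (b : ℝ) ^ i) ∧
      Int.fract (z * (b : ℝ) ^ i) < β}.ncard : ℕ) : ℝ) - (β - α) * n| ≤ E

/-- Let `B ≥ 2`, `ε, δ > 0` and `A` be arbitrary.
(1) Let `ξ` be an irrational algebraic number, `k, Q ≥ 1`. For all large `N` and all
`M ≥ exp (ε N)`, all real polynomials `G` of degree `k` with leading coefficient `ξ` and all integral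
polynomials `P`: for all but `M / N ^ A` of the `m < M` the number `G(m) + P(m) / Q` has in all bases
`b ≤ B` the discrepancy (not normalized) at most `N ^ (1 / 2 + δ)` up to the `n`-th digit, for all
`n ≤ N`.
(2) Let `F` be a real polynomial with algebraic coefficients. Either all the coefficients of
`F - F(0)` are rational, or for all large `N` and all `M ≥ exp (ε N)` all but `M / N ^ A` of the
numbers `F(m)`, `m < M`, have this property.
(3) For all real `x, y` and for all large `N` and all `M ≥ exp (ε N)` all but `M / N ^ A` of the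
numbers `√2 m ^ 2 + x m + y`, `m < M`, have this property. -/
theorem result (B : ℕ) (ε δ : ℝ) (hε : 0 < ε) (hδ : 0 < δ) (A : ℕ) :
    (∀ ξ : ℝ, IsAlgebraic ℚ ξ → Irrational ξ → ∀ k Q : ℕ, 1 ≤ k → 1 ≤ Q →
      ∃ N₀ : ℕ, ∀ N : ℕ, N₀ ≤ N → ∀ M : ℕ, Real.exp (ε * N) ≤ M →
      ∀ (G : ℝ[X]) (P : ℤ[X]), G.natDegree = k → G.leadingCoeff = ξ →
      (({m : ℕ | m < M ∧ ¬ ∀ b : ℕ, 2 ≤ b → b ≤ B → DiscrepancyUpTo b N ((N : ℝ) ^ (1 / 2 + δ))
        (G.eval (m : ℝ) + ((P.eval (m : ℤ) : ℤ) : ℝ) / Q)}.ncard : ℕ) : ℝ) ≤ M / (N : ℝ) ^ A) ∧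
    (∀ F : ℝ[X], (∀ i, IsAlgebraic ℚ (F.coeff i)) →
      (∀ i, 1 ≤ i → ∃ r : ℚ, F.coeff i = r) ∨
      ∃ N₀ : ℕ, ∀ N : ℕ, N₀ ≤ N → ∀ M : ℕ, Real.exp (ε * N) ≤ M →
      (({m : ℕ | m < M ∧ ¬ ∀ b : ℕ, 2 ≤ b → b ≤ B → DiscrepancyUpTo b N ((N : ℝ) ^ (1 / 2 + δ))
        (F.eval (m : ℝ))}.ncard : ℕ) : ℝ) ≤ M / (N : ℝ) ^ A) ∧
    (∀ x y : ℝ, ∃ N₀ : ℕ, ∀ N : ℕ, N₀ ≤ N → ∀ M : ℕ, Real.exp (ε * N) ≤ M →
      (({m : ℕ | m < M ∧ ¬ ∀ b : ℕ, 2 ≤ b → b ≤ B → DiscrepancyUpTo b N ((N : ℝ) ^ (1 / 2 + δ))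
        (√2 * (m : ℝ) ^ 2 + x * m + y)}.ncard : ℕ) : ℝ) ≤ M / (N : ℝ) ^ A) := by
  classical
  have hdef : ∀ (N : ℕ) (z : ℝ), Pool.Agent.Run7.h566.DP.Gd (Icc 2 B) N δ z ↔
      ∀ b : ℕ, 2 ≤ b → b ≤ B → DiscrepancyUpTo b N ((N : ℝ) ^ (1 / 2 + δ)) z := by
    intro N z
    unfold DiscrepancyUpTo Pool.Agent.Run7.h566.DP.Gd
    simp only [mem_Icc, and_imp]
    refine forall_congr' fun b => imp_congr_right fun _ => imp_congr_right fun _ =>
      forall_congr' fun n => imp_congr_right fun _ => forall_congr' fun α =>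
      forall_congr' fun β => imp_congr_right fun _ => imp_congr_right fun _ =>
        imp_congr_right fun _ => ?_
    rw [← Set.ncard_coe_finset]
    have : {i : ℕ | 1 ≤ i ∧ i ≤ n ∧ α ≤ Int.fract (z * (b : ℝ) ^ i) ∧
        Int.fract (z * (b : ℝ) ^ i) < β} = (((Icc 1 n).filter (fun i : ℕ =>
        α ≤ Int.fract (z * (b : ℝ) ^ i) ∧ Int.fract (z * (b : ℝ) ^ i) < β) : Finset ℕ) : Set ℕ) := by
      ext i
      simp [and_assoc]
    rw [this]
  have key : ∀ ξ : ℝ, IsAlgebraic ℚ ξ → Irrational ξ → ∀ k Q : ℕ, 1 ≤ k → 1 ≤ Q →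
      ∃ N₀ : ℕ, ∀ N : ℕ, N₀ ≤ N → ∀ M : ℕ, Real.exp (ε * N) ≤ M →
      ∀ (G : ℝ[X]) (P : ℤ[X]), G.natDegree = k → G.leadingCoeff = ξ →
      (({m : ℕ | m < M ∧ ¬ ∀ b : ℕ, 2 ≤ b → b ≤ B → DiscrepancyUpTo b N ((N : ℝ) ^ (1 / 2 + δ))
        (G.eval (m : ℝ) + ((P.eval (m : ℤ) : ℤ) : ℝ) / Q)}.ncard : ℕ) : ℝ) ≤ M / (N : ℝ) ^ A := by
    intro ξ halg hirr k Q hk hQ
    obtain ⟨N₀, h⟩ := Pool.Agent.Run7.h566.DP.glue (Icc 2 B) (fun b hb => (mem_Icc.1 hb).1)
      (fun M => range M) (fun _ _ => True) (Pool.Agent.Run7.h566.DP.val ξ k Q) (by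
        intro r hr
        filter_upwards [Filter.eventually_ge_atTop 1] with M hM
        have hMR : (1 : ℝ) ≤ M := by exact_mod_cast hM
        rw [card_range]
        calc (M : ℝ) ^ (1 - r) ≤ (M : ℝ) ^ (1 : ℝ) :=
              Real.rpow_le_rpow_of_exponent_le hMR (by linarith)
          _ = M := Real.rpow_one _)
      (fun b hb => Pool.Agent.Run7.h566.DP.poly_sav ξ halg hirr k hk Q hQ b (mem_Icc.1 hb).1)
      ε δ hε hδ A
    refine ⟨max N₀ 1, fun N hN M hM G P hG1 hG2 => ?_⟩
    have hN1 : (1 : ℝ) ≤ N := by exact_mod_cast (le_max_right _ _).trans hN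
    have h1 := h N ((le_max_left _ _).trans hN) M hM ⟨(G, P), hG1, hG2⟩ trivial
    rw [le_div_iff₀ (by positivity)]
    rw [card_range] at h1
    refine le_trans (mul_le_mul_of_nonneg_right ?_ (by positivity)) h1
    refine Nat.cast_le.2 ?_
    rw [← Set.ncard_coe_finset]
    refine Set.ncard_le_ncard ?_ (finite_toSet _)
    rintro m ⟨hm1, hm2⟩
    rw [mem_coe, mem_filter, mem_range]
    refine ⟨hm1, ?_⟩
    rw [hdef]
    exact hm2
  refine ⟨key, ?_, ?_⟩
  · intro F hF
    by_cases hrat : ∀ i, 1 ≤ i → ∃ r : ℚ, F.coeff i = r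
    · exact Or.inl hrat
    right
    push Not at hrat
    -- the highest irrational coefficient
    obtain ⟨i0, hi0, hi0'⟩ := hrat
    set I : Finset ℕ := F.support.filter (fun i => 1 ≤ i ∧ ∀ r : ℚ, F.coeff i ≠ r) with hI
    have hIne : I.Nonempty := by
      refine ⟨i0, ?_⟩
      rw [hI, mem_filter, mem_support_iff]
      refine ⟨?_, hi0, hi0'⟩
      have := hi0' 0
      simpa using this
    set k : ℕ := I.max' hIne with hk
    have hkI : k ∈ I := I.max'_mem hIne
    rw [hI, mem_filter] at hkI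
    obtain ⟨hk0, hk1, hk2⟩ := hkI
    have hkmax : ∀ i, k < i → ∃ r : ℚ, F.coeff i = r := by
      intro i hi
      by_contra hcon
      push Not at hcon
      have : i ∈ I := by
        rw [hI, mem_filter, mem_support_iff]
        refine ⟨?_, by omega, hcon⟩
        have := hcon 0
        simpa using this
      have := I.le_max' i this
      omega
    have hirr : Irrational (F.coeff k) := by
      rintro ⟨r, hr⟩
      exact hk2 r hr.symm
    choose q hq using hkmax
    set d : ℕ := F.natDegree with hd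
    -- common denominator
    set Q : ℕ := ∏ i ∈ range (d + 1), (if h : k < i then (q i h).den else 1) with hQ
    have hQ1 : 1 ≤ Q := by
      rw [hQ]
      refine Nat.one_le_iff_ne_zero.2 (prod_ne_zero_iff.2 fun i _ => ?_)
      split_ifs
      · exact Rat.den_ne_zero _
      · exact one_ne_zero
    have hQd : ∀ i, ∀ h : k < i, i ≤ d → (q i h).den ∣ Q := by
      intro i h hid
      have h1 := dvd_prod_of_mem (fun i => if h : k < i then (q i h).den else 1)
        (mem_range.2 (Nat.lt_succ_of_le hid))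
      simp only [h, dif_pos] at h1
      exact h1
    set P : ℤ[X] := ∑ i ∈ range (d + 1), (if h : k < i then
      monomial i ((q i h).num * ((Q / (q i h).den : ℕ) : ℤ)) else 0) with hP
    set G : ℝ[X] := ∑ i ∈ range (k + 1), monomial i (F.coeff i) with hG
    have hGc : ∀ i, G.coeff i = if i ≤ k then F.coeff i else 0 := by
      intro i
      rw [hG, finset_sum_coeff]
      simp only [coeff_monomial]
      rw [sum_ite_eq' (range (k + 1)) i (fun j => F.coeff j)]
      simp only [mem_range, Nat.lt_succ_iff]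
    have hGd : G.natDegree = k := by
      apply natDegree_eq_of_le_of_coeff_ne_zero
      · rw [natDegree_le_iff_coeff_eq_zero]
        intro i hi
        rw [hGc, if_neg (by omega)]
      · rw [hGc, if_pos le_rfl]
        exact mem_support_iff.1 hk0
    have hGl : G.leadingCoeff = F.coeff k := by
      rw [leadingCoeff, hGd, hGc, if_pos le_rfl]
    obtain ⟨N₀, h⟩ := key (F.coeff k) (hF k) hirr k Q hk1 hQ1
    refine ⟨N₀, fun N hN M hM => ?_⟩
    have h1 := h N hN M hM G P hGd hGl
    have hkd : k ≤ d := by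
      rw [hd]
      exact le_natDegree_of_ne_zero (mem_support_iff.1 hk0)
    have hval : ∀ m : ℕ, G.eval (m : ℝ) + ((P.eval (m : ℤ) : ℤ) : ℝ) / Q = F.eval (m : ℝ) := by
      intro m
      have hQR : (Q : ℝ) ≠ 0 := by
        have : Q ≠ 0 := by omega
        exact_mod_cast this
      have e1 : G.eval (m : ℝ) = ∑ i ∈ range (k + 1), F.coeff i * (m : ℝ) ^ i := by
        rw [hG, eval_finset_sum]
        exact sum_congr rfl fun i _ => by rw [eval_monomial]
      have e2 : ((P.eval (m : ℤ) : ℤ) : ℝ) / Q =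
          ∑ i ∈ range (d + 1), if k < i then F.coeff i * (m : ℝ) ^ i else 0 := by
        rw [hP, eval_finset_sum, Int.cast_sum, sum_div]
        refine sum_congr rfl fun i hi => ?_
        rw [mem_range, Nat.lt_succ_iff] at hi
        by_cases h : k < i
        · rw [dif_pos h, if_pos h, eval_monomial, hq i h]
          obtain ⟨t, ht⟩ := hQd i h hi
          have hden : 0 < (q i h).den := (q i h).den_pos
          have hdt : Q / (q i h).den = t := by
            rw [ht]
            exact Nat.mul_div_cancel_left t hden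
          rw [hdt]
          have hqr : ((q i h : ℚ) : ℝ) = ((q i h).num : ℝ) / ((q i h).den : ℝ) := by
            have := Rat.num_div_den (q i h)
            conv_lhs => rw [← this]
            push_cast
            rfl
          have hQt : (Q : ℝ) = (q i h).den * t := by exact_mod_cast ht
          have hdenR : ((q i h).den : ℝ) ≠ 0 := by positivity
          have htR : (t : ℝ) ≠ 0 := by
            intro h0
            rw [hQt, h0, mul_zero] at hQR
            exact hQR rfl
          rw [hqr, hQt]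
          push_cast
          field_simp
        · rw [dif_neg h, if_neg h]
          simp
      rw [e1, e2, eval_eq_sum_range, ← hd]
      have e3 : range (k + 1) = (range (d + 1)).filter (fun i => ¬ k < i) := by
        ext i
        simp only [mem_range, mem_filter]
        omega
      rw [e3, sum_filter, ← sum_add_distrib]
      refine sum_congr rfl fun i _ => ?_
      by_cases h : k < i
      · simp [h]
      · simp [h]
    simp_rw [hval] at h1
    exact h1
  · intro x y
    obtain ⟨N₀, h⟩ := key √2 (by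
      refine ⟨X ^ 2 - C 2, ?_, ?_⟩
      · exact (monic_X_pow_sub_C (2 : ℚ) (by norm_num)).ne_zero
      · simp) irrational_sqrt_two 2 1 (by norm_num) le_rfl
    refine ⟨N₀, fun N hN M hM => ?_⟩
    have h1 := h N hN M hM (C √2 * X ^ 2 + C x * X + C y) 0
      (natDegree_quadratic (by positivity)) (leadingCoeff_quadratic (by positivity))
    have hval : ∀ m : ℕ, (C √2 * X ^ 2 + C x * X + C y : ℝ[X]).eval (m : ℝ) +
        (((0 : ℤ[X]).eval (m : ℤ) : ℤ) : ℝ) / ((1 : ℕ) : ℝ) = √2 * (m : ℝ) ^ 2 + x * m + y := by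
      intro m
      simp
    simp_rw [hval] at h1
    exact h1

end Pool.Agent.Run7.h566.DP.PolyR
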