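import Pool.Agent.W346.NM.Poly
import Pool.Agent.Run7.h566.DP.Glue

/-!
# Exponential sums over the values of a polynomial whose highest irrational coefficient is algebraic
-/

set_option autoImplicit false

namespace Pool.Agent.Run7.h566.DP

open Finset Filter Topology Polynomial
open Pool.Agent.H469R2.NK (e norm_e e_add)
open Pool.Agent.W261.NM (ex)
open Pool.Agent.R485.Mult (e_intCast)

lemma ex_e (x : ℝ) : ex x = e x := by
  unfold ex e
  congr 1
  push_cast
  ring

/-- splitting a sum into residue classes -/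
lemma split_classes (Q M : ℕ) (hQ : 1 ≤ Q) (f : ℕ → ℂ) :
    ∑ m ∈ range M, f m = ∑ r ∈ range Q, ∑ n ∈ range ((M + Q - 1 - r) / Q), f (Q * n + r) := by
  classical
  rw [← sum_fiberwise_of_maps_to (s := range M) (t := range Q) (g := fun m => m % Q)
    (fun m _ => mem_range.2 (Nat.mod_lt _ (by omega)))]
  refine sum_congr rfl fun r hr => ?_
  rw [mem_range] at hr
  refine sum_nbij' (fun m => m / Q) (fun n => Q * n + r) ?_ ?_ ?_ ?_ ?_
  · intro m hm
    rw [mem_filter, mem_range] at hm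
    rw [mem_range, Nat.lt_iff_add_one_le, Nat.le_div_iff_mul_le (by omega)]
    have h1 := Nat.div_add_mod m Q
    rw [hm.2] at h1
    have h2 : (m / Q + 1) * Q = Q * (m / Q) + Q := by ring
    rw [h2]
    omega
  · intro n hn
    rw [mem_range, Nat.lt_iff_add_one_le, Nat.le_div_iff_mul_le (by omega)] at hn
    rw [mem_filter, mem_range]
    have h2 : (n + 1) * Q = Q * n + Q := by ring
    rw [h2] at hn
    refine ⟨by omega, ?_⟩
    rw [Nat.mul_add_mod]
    exact Nat.mod_eq_of_lt hr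
  · intro m hm
    rw [mem_filter] at hm
    have h1 := Nat.div_add_mod m Q
    rw [hm.2] at h1
    exact h1
  · intro n _
    show (Q * n + r) / Q = n
    rw [Nat.mul_add_div (by omega), Nat.div_eq_of_lt hr, add_zero]
  · intro m hm
    rw [mem_filter] at hm
    have h1 := Nat.div_add_mod m Q
    rw [hm.2] at h1
    rw [h1]

/-- the family `G(m) + P(m) / Q` -/
def Fam (ξ : ℝ) (k : ℕ) : Type :=
  {x : ℝ[X] × ℤ[X] // x.1.natDegree = k ∧ x.1.leadingCoeff = ξ}

/-- the values -/
noncomputable def val (ξ : ℝ) (k Q : ℕ) (w : Fam ξ k) (m : ℕ) : ℝ :=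
  w.1.1.eval (m : ℝ) + ((w.1.2.eval (m : ℤ) : ℤ) : ℝ) / Q

theorem poly_sav (ξ : ℝ) (halg : IsAlgebraic ℚ ξ) (hirr : Irrational ξ) (k : ℕ) (hk : 1 ≤ k)
    (Q : ℕ) (hQ : 1 ≤ Q) (b : ℕ) (hb : 2 ≤ b) :
    Sav b (fun M => range M) (fun _ _ => True) (val ξ k Q) := by
  intro D C hC
  have hQR : (1 : ℝ) ≤ Q := by exact_mod_cast hQ
  have halg' : IsAlgebraic ℚ (ξ * (Q : ℝ) ^ k) := by
    have h1 : IsAlgebraic ℚ ((Q ^ k : ℕ) : ℝ) := isAlgebraic_natCast _
    have := halg.mul h1
    push_cast at this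
    exact this
  have hirr' : Irrational (ξ * (Q : ℝ) ^ k) := by
    have := hirr.mul_natCast (m := Q ^ k) (by positivity)
    push_cast at this
    exact this
  obtain ⟨c, hc0, hc1, N0, hpoly⟩ := Pool.Agent.W346.NM.poly b hb _ halg' hirr' k hk D (2 * C)
    (by positivity)
  obtain ⟨M1, hM1⟩ := eventually_atTop.1 ((ev_rpow_ge (c / 2) Q (by positivity)).and
    ((ev_rpow_ge (1 / 2) (2 * Q) (by norm_num)).and
      ((ev_rpow_ge (1 / 2) N0 (by norm_num)).and (eventually_ge_atTop 1))))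
  refine ⟨c / 2, by positivity, by linarith, M1, fun M hM p hp lam hlam hne w _ => ?_⟩
  obtain ⟨h1, h2, h3, h4⟩ := hM1 M hM
  have hMR : (1 : ℝ) ≤ M := by exact_mod_cast h4
  have hM0 : (0 : ℝ) < M := by linarith
  set K : ℤ := ∑ i, lam i * (b : ℤ) ^ (p i) with hK
  obtain ⟨⟨G, P⟩, hG1, hG2⟩ := w
  simp only at hG1 hG2
  have hval : ∀ m : ℕ, val ξ k Q ⟨(G, P), hG1, hG2⟩ m =
      G.eval (m : ℝ) + ((P.eval (m : ℤ) : ℤ) : ℝ) / Q := fun m => rfl
  simp_rw [hval]
  rw [split_classes Q M hQ]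
  -- one class
  have hcl : ∀ r ∈ range Q, ‖∑ n ∈ range ((M + Q - 1 - r) / Q), e ((K : ℝ) *
      (G.eval ((Q * n + r : ℕ) : ℝ) + ((P.eval ((Q * n + r : ℕ) : ℤ) : ℤ) : ℝ) / Q))‖ ≤
      (M : ℝ) ^ (1 - c) := by
    intro r hr
    rw [mem_range] at hr
    set L : ℕ := (M + Q - 1 - r) / Q with hL
    have hLM : L ≤ M := by
      rw [hL]
      refine Nat.div_le_of_le_mul ?_
      have : 1 * M + 1 * Q ≤ Q * M + 1 := by nlinarith
      omega
    have hsq : (M : ℝ) ^ (1 / 2 : ℝ) * (M : ℝ) ^ (1 / 2 : ℝ) = M := by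
      rw [← Real.rpow_add hM0]; norm_num
    have hLs : (M : ℝ) ^ (1 / 2 : ℝ) ≤ L := by
      have h5 : M ≤ Q * L + Q := by
        have h6 := Nat.lt_mul_div_succ (M + Q - 1 - r) (show 0 < Q by omega)
        rw [← hL] at h6
        have h7 : Q * (L + 1) = Q * L + Q := by ring
        rw [h7] at h6
        omega
      have h6 : (M : ℝ) ≤ Q * L + Q := by exact_mod_cast h5
      set u : ℝ := (M : ℝ) ^ (1 / 2 : ℝ) with hu
      have h7 : (Q : ℝ) * (2 * u) ≤ Q * L + Q := by
        calc (Q : ℝ) * (2 * u) = (2 * Q) * u := by ring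
          _ ≤ u * u := by
              apply mul_le_mul_of_nonneg_right h2 (by positivity)
          _ = M := hsq
          _ ≤ _ := h6
      have h8 : 2 * u ≤ L + 1 := by
        have : (Q : ℝ) * (2 * u) ≤ Q * (L + 1) := by linarith
        exact le_of_mul_le_mul_left this (by linarith)
      have h9 : 1 ≤ u := by
        have : (2 : ℝ) * 1 ≤ 2 * Q := by linarith
        linarith
      linarith
    have hL0 : (0 : ℝ) < L := lt_of_lt_of_le (by positivity) hLs
    have hL1 : (1 : ℝ) ≤ L := by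
      have : 0 < L := by exact_mod_cast hL0
      exact_mod_cast this
    have hLN0 : N0 ≤ L := by exact_mod_cast h3.trans hLs
    have hlog : Real.log M ≤ 2 * Real.log L := by
      have h5 : (M : ℝ) ≤ (L : ℝ) ^ 2 := by
        rw [sq, ← hsq]
        exact mul_le_mul hLs hLs (by positivity) hL0.le
      have h6 := Real.log_le_log hM0 h5
      rw [Real.log_pow] at h6
      push_cast at h6
      exact h6
    set F : ℝ[X] := G.comp (Polynomial.C (Q : ℝ) * X + Polynomial.C (r : ℝ)) with hF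
    have hQ0 : (Q : ℝ) ≠ 0 := by positivity
    have hlin : (Polynomial.C (Q : ℝ) * X + Polynomial.C (r : ℝ)).natDegree = 1 :=
      natDegree_linear hQ0
    have hFd : F.natDegree = k := by
      rw [hF, natDegree_comp, hlin, mul_one, hG1]
    have hFl : F.leadingCoeff = ξ * (Q : ℝ) ^ k := by
      rw [hF, leadingCoeff_comp (by rw [hlin]; exact one_ne_zero), leadingCoeff_linear hQ0, hG1,
        hG2]
    set Kn : ℕ := ⌊2 * C * Real.log L⌋₊ with hKn
    set H : ℕ := ⌊(L : ℝ) ^ c⌋₊ with hH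
    have hlogL : 0 ≤ Real.log L := Real.log_nonneg hL1
    have h5 := hpoly L hLN0 Kn H (Nat.floor_le (by positivity)) (Nat.floor_le (by positivity)) F hFd
      hFl p (fun i => by
        apply Nat.le_floor
        refine (hp i).trans ?_
        nlinarith) lam (fun i => by
        have h6 : |(lam i : ℝ)| = ((lam i).natAbs : ℝ) := by
          rw [Nat.cast_natAbs, Int.cast_abs]
        rw [h6]
        have h7 : (lam i).natAbs ≤ H := by
          apply Nat.le_floor
          rw [← h6]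
          refine (hlam i).trans ?_
          calc (M : ℝ) ^ (c / 2) = ((M : ℝ) ^ (1 / 2 : ℝ)) ^ c := by
                rw [← Real.rpow_mul hM0.le]
                congr 1
                ring
            _ ≤ (L : ℝ) ^ c := by
                apply Real.rpow_le_rpow (by positivity) hLs hc0.le
        exact_mod_cast h7) hne
    have h6 : ∀ n : ℕ, e ((K : ℝ) * (G.eval ((Q * n + r : ℕ) : ℝ) +
        ((P.eval ((Q * n + r : ℕ) : ℤ) : ℤ) : ℝ) / Q)) =
        e ((K : ℝ) * (((P.eval (r : ℤ) : ℤ) : ℝ) / Q)) * ex ((K : ℝ) * F.eval (n : ℝ)) := by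
      intro n
      obtain ⟨t, ht⟩ := sub_dvd_eval_sub ((Q * n + r : ℕ) : ℤ) (r : ℤ) P
      have e1 : ((Q * n + r : ℕ) : ℤ) - (r : ℤ) = Q * n := by push_cast; ring
      rw [e1] at ht
      have e2 : P.eval ((Q * n + r : ℕ) : ℤ) = P.eval (r : ℤ) + Q * n * t := by linarith
      have e3 : F.eval (n : ℝ) = G.eval ((Q * n + r : ℕ) : ℝ) := by
        rw [hF, eval_comp]
        congr 1
        simp
      rw [e2, ex_e, ← e_add, e3]
      have e4 : (K : ℝ) * (G.eval ((Q * n + r : ℕ) : ℝ) +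
          ((P.eval (r : ℤ) + Q * n * t : ℤ) : ℝ) / Q) =
          ((K : ℝ) * (((P.eval (r : ℤ) : ℤ) : ℝ) / Q) + (K : ℝ) * G.eval ((Q * n + r : ℕ) : ℝ)) +
            ((K * (n * t) : ℤ) : ℝ) := by
        push_cast
        field_simp
        ring
      rw [e4, e_add, e_intCast, mul_one]
    rw [sum_congr rfl fun n _ => h6 n, ← mul_sum, norm_mul, norm_e, one_mul]
    refine h5.trans ?_
    apply Real.rpow_le_rpow (by positivity) (by exact_mod_cast hLM) (by linarith)
  refine (norm_sum_le _ _).trans ((sum_le_sum hcl).trans ?_)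
  rw [sum_const, card_range, nsmul_eq_mul]
  calc (Q : ℝ) * (M : ℝ) ^ (1 - c) ≤ (M : ℝ) ^ (c / 2) * (M : ℝ) ^ (1 - c) := by gcongr
    _ = (M : ℝ) ^ (1 - c / 2) := by
        rw [← Real.rpow_add hM0]
        congr 1
        ring

end Pool.Agent.Run7.h566.DP
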