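import Pool.Agent.W261.NM.Low
import Pool.Agent.W301.SS.Vino
import Pool.Agent.TH915.PW.PrimeSum

/-!
# Exponential sums over the primes at few powers of `b` times an algebraic irrational number
-/

set_option autoImplicit false

namespace Pool.Agent.Run7.h566.DP

open Finset Filter Topology
open Pool.Agent.H469R2.NK (e norm_e)
open Pool.Agent.W301.SS (SL VB VB_mono vino)
open Pool.Agent.W261.NM (lowbd)
open Pool.Agent.TH915.PW (prime_bound abel_bound)

lemma SL_eq (n : ℕ) (θ : ℝ) :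
    SL n θ = ∑ k ∈ Ioc 0 n, ((ArithmeticFunction.vonMangoldt k : ℝ) : ℂ) * e (θ * k) := by
  unfold SL
  have h0 : Icc 1 n = Ioc 0 n := by
    ext i; simp only [mem_Icc, mem_Ioc]; omega
  rw [h0]
  refine sum_congr rfl fun k _ => ?_
  congr 1
  unfold Pool.Agent.H807R2.Dav.ee e
  congr 1
  push_cast
  ring

/-- from the von Mangoldt function to the primes -/
theorem primes_le (M : ℕ) (θ G : ℝ) (hG0 : 0 ≤ G) (hG : ∀ n ≤ M, ‖SL n θ‖ ≤ G) :
    ‖∑ p ∈ (Icc 1 M).filter Nat.Prime, e (θ * p)‖ ≤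
      2 * (G + 2 * √(M : ℝ) * Real.log M) := by
  rcases Nat.lt_or_ge 1 M with hM | hM
  swap
  · have h1 : (Icc 1 M).filter Nat.Prime = ∅ := by
      rw [filter_eq_empty_iff]
      intro p hp hpp
      rw [mem_Icc] at hp
      have := hpp.two_le
      omega
    rw [h1, sum_empty, norm_zero]
    rcases Nat.eq_zero_or_pos M with h0 | h0
    · subst h0; simp; linarith
    · have : M = 1 := by omega
      subst this; simp; linarith
  have hMR : (1 : ℝ) ≤ M := by exact_mod_cast hM.le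
  have hlM : 0 ≤ Real.log M := Real.log_nonneg hMR
  set a : ℕ → ℂ := fun n => (((if n.Prime then Real.log n else 0 : ℝ)) : ℂ) * e (θ * n) with ha
  set w : ℕ → ℝ := fun n => (Real.log n)⁻¹ with hw
  set E : ℝ := G + 2 * √(M : ℝ) * Real.log M with hE
  have hE0 : 0 ≤ E := by positivity
  have hlogpos : ∀ n : ℕ, 1 < n → 0 < Real.log n := fun n hn =>
    Real.log_pos (by exact_mod_cast hn)
  have h1 : ‖∑ i ∈ Ioc 1 M, (w i : ℂ) * a i‖ ≤ w (1 + 1) * E := by
    refine abel_bound w a 1 E (fun n hn => (inv_pos.2 (hlogpos n hn)).le) (fun n hn => ?_) M hM ?_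
    · apply inv_anti₀ (hlogpos n hn)
      exact Real.log_le_log (by exact_mod_cast (by omega : 0 < n)) (by push_cast; linarith)
    · intro t ht1 ht2
      have e1 : ∑ i ∈ Ioc 1 t, a i = ∑ i ∈ Ioc 0 t, a i := by
        have e2 : Ioc 0 t = insert 1 (Ioc 1 t) := by
          ext i; simp only [mem_insert, mem_Ioc]; omega
        rw [e2, sum_insert (by simp)]
        have e3 : a 1 = 0 := by rw [ha]; simp [Nat.not_prime_one]
        rw [e3, zero_add]
      rw [e1]
      have h2 := prime_bound 0 t (by omega) (fun n => e (θ * n)) (fun n => (norm_e _).le) G (by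
        rw [← SL_eq]
        exact hG t ht2)
      refine h2.trans ?_
      have ht0 : (0 : ℝ) < t := by exact_mod_cast (by omega : 0 < t)
      have htM : (t : ℝ) ≤ M := by exact_mod_cast ht2
      have h3 : √(t : ℝ) ≤ √(M : ℝ) := Real.sqrt_le_sqrt htM
      have h4 : Real.log t ≤ Real.log M := Real.log_le_log ht0 htM
      have h5 : 0 ≤ Real.log t := Real.log_nonneg (by exact_mod_cast (by omega : 1 ≤ t))
      rw [hE]
      have h6 : √(t : ℝ) * Real.log t ≤ √(M : ℝ) * Real.log M := by gcongr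
      linarith
  have h2 : ∑ i ∈ Ioc 1 M, (w i : ℂ) * a i = ∑ p ∈ (Icc 1 M).filter Nat.Prime, e (θ * p) := by
    have e1 : (Icc 1 M).filter Nat.Prime = (Ioc 1 M).filter Nat.Prime := by
      ext i
      simp only [mem_filter, mem_Icc, mem_Ioc]
      constructor
      · rintro ⟨_, h⟩
        have := h.two_le
        exact ⟨by omega, h⟩
      · rintro ⟨_, h⟩
        exact ⟨by omega, h⟩
    rw [e1, sum_filter]
    refine sum_congr rfl fun i hi => ?_
    rw [mem_Ioc] at hi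
    have hl := hlogpos i hi.1
    rw [hw, ha]
    simp only
    split_ifs with hp
    · rw [← mul_assoc, ← Complex.ofReal_mul, inv_mul_cancel₀ hl.ne', Complex.ofReal_one, one_mul]
    · simp
  rw [← h2]
  refine h1.trans ?_
  have h3 : w (1 + 1) ≤ 2 := by
    rw [hw]
    simp only
    push_cast
    rw [inv_le_comm₀ (Real.log_pos (by norm_num)) (by norm_num)]
    have := Real.log_two_gt_d9
    linarith
  exact mul_le_mul_of_nonneg_right h3 hE0

lemma ev_one_add_log (r : ℝ) (hr : 0 < r) : ∀ᶠ M : ℕ in atTop,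
    1 + Real.log (M : ℝ) ≤ (M : ℝ) ^ r := by
  have h1 : (fun u : ℝ => 1 + Real.log u) =o[atTop] (fun u : ℝ => u ^ r) := by
    apply Asymptotics.IsLittleO.add
    · exact Asymptotics.isLittleO_const_left.2 (Or.inr (by
        refine tendsto_norm_atTop_atTop.comp (tendsto_rpow_atTop hr)))
    · exact isLittleO_log_rpow_atTop hr
  have h2 := (h1.comp_tendsto tendsto_natCast_atTop_atTop).bound (c := 1) one_pos
  filter_upwards [h2, eventually_ge_atTop 1] with N hN hN1
  simp only [Function.comp, Real.norm_eq_abs, one_mul] at hN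
  have hN1' : (1 : ℝ) ≤ N := by exact_mod_cast hN1
  rw [abs_of_nonneg (a := (N : ℝ) ^ r) (by positivity)] at hN
  exact (le_abs_self _).trans hN

lemma ev_const (r K : ℝ) (hr : 0 < r) : ∀ᶠ M : ℕ in atTop, K ≤ (M : ℝ) ^ r :=
  ((tendsto_rpow_atTop hr).comp tendsto_natCast_atTop_atTop).eventually_ge_atTop K

/-- the exponential sums over the primes -/
theorem prime_expo (b : ℕ) (hb : 2 ≤ b) (ξ : ℝ) (halg : IsAlgebraic ℚ ξ) (hirr : Irrational ξ)
    (D : ℕ) (C : ℝ) (hC : 0 < C) :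
    ∃ c : ℝ, 0 < c ∧ c < 1 ∧ ∃ M0 : ℕ, ∀ M : ℕ, M0 ≤ M → ∀ k : Fin D → ℕ,
      (∀ i, (k i : ℝ) ≤ C * Real.log M) → ∀ lam : Fin D → ℤ,
      (∀ i, |(lam i : ℝ)| ≤ (M : ℝ) ^ c) → ∑ i, lam i * (b : ℤ) ^ (k i) ≠ 0 →
      ‖∑ p ∈ (Icc 1 M).filter Nat.Prime,
        e (ξ * ((∑ i, lam i * (b : ℤ) ^ (k i) : ℤ) : ℝ) * p)‖ ≤ (M : ℝ) ^ (1 - c) := by
  obtain ⟨c0, hc0, N0, hlow⟩ := lowbd b hb ξ halg hirr D C (1 / 4) hC (by norm_num)
  obtain ⟨V, hV, hvino⟩ := vino
  set c2 : ℝ := min (c0 / 4) (1 / 5) with hc2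
  have hc2pos : 0 < c2 := lt_min (by positivity) (by norm_num)
  have hc2a : c2 ≤ c0 / 4 := min_le_left _ _
  have hc2b : c2 ≤ 1 / 5 := min_le_right _ _
  set r : ℝ := c2 / 32 with hr
  have hr0 : 0 < r := by positivity
  obtain ⟨N1, hN1⟩ := eventually_atTop.1 ((ev_one_add_log r hr0).and
    ((ev_const r (max (12 * V) 8) hr0).and (eventually_ge_atTop 1)))
  refine ⟨c2 / 2, by positivity, by linarith, max N0 N1, fun M hM k hk lam hlam hne => ?_⟩
  obtain ⟨hl1, hl2, hM1⟩ := hN1 M ((le_max_right _ _).trans hM)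
  have hMR : (1 : ℝ) ≤ M := by exact_mod_cast hM1
  have hM0 : (0 : ℝ) < M := by linarith
  set K : ℤ := ∑ i, lam i * (b : ℤ) ^ (k i) with hK
  set θ : ℝ := ξ * (K : ℝ) with hθ
  set n : ℕ := Nat.sqrt M with hn
  have hn0 : 0 < n := Nat.sqrt_pos.2 hM1
  have hnle : (n : ℝ) ≤ √(M : ℝ) := by
    rw [hn]
    exact Real.nat_sqrt_le_real_sqrt
  have hnlt : √(M : ℝ) ≤ n + 1 := by
    rw [hn]
    exact Real.real_sqrt_le_nat_sqrt_succ
  have hsq0 : 0 < √(M : ℝ) := Real.sqrt_pos.2 hM0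
  obtain ⟨q, hq1, hq2⟩ := Real.exists_rat_abs_sub_le_and_den_le θ hn0
  have hden : (0 : ℝ) < q.den := by exact_mod_cast q.den_pos
  have hden1 : (1 : ℝ) ≤ q.den := by exact_mod_cast q.den_pos
  have hqd : (q : ℝ) = (q.num : ℝ) / (q.den : ℝ) := by
    have := Rat.num_div_den q
    conv_lhs => rw [← this]
    push_cast
    rfl
  have hdenn : (q.den : ℝ) ≤ n := by exact_mod_cast hq2
  -- the denominator is large
  have hbig : (M : ℝ) ^ (c0 / 2) < q.den := by
    by_contra hcon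
    push Not at hcon
    have h1 := hlow M ((le_max_left _ _).trans hM) k hk (fun i => (q.den : ℤ) * lam i) (by
      intro i
      push_cast
      rw [abs_mul, abs_of_pos hden]
      calc (q.den : ℝ) * |(lam i : ℝ)| ≤ (M : ℝ) ^ (c0 / 2) * (M : ℝ) ^ (c2 / 2) := by
            gcongr
            exact hlam i
        _ = (M : ℝ) ^ (c0 / 2 + c2 / 2) := by rw [← Real.rpow_add hM0]
        _ ≤ (M : ℝ) ^ c0 := Real.rpow_le_rpow_of_exponent_le hMR (by linarith)) (by
      have : ∑ i, (q.den : ℤ) * lam i * (b : ℤ) ^ (k i) = (q.den : ℤ) * K := by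
        rw [hK, mul_sum]
        exact sum_congr rfl fun i _ => by ring
      rw [this]
      exact mul_ne_zero (by exact_mod_cast q.den_ne_zero) hne) q.num
    have h2 : ∑ i, (q.den : ℤ) * lam i * (b : ℤ) ^ (k i) = (q.den : ℤ) * K := by
      rw [hK, mul_sum]
      exact sum_congr rfl fun i _ => by ring
    rw [h2] at h1
    have h3 : |ξ * (((q.den : ℤ) * K : ℤ) : ℝ) - q.num| ≤ 1 / √(M : ℝ) := by
      have e1 : ξ * (((q.den : ℤ) * K : ℤ) : ℝ) - q.num = (θ - q) * q.den := by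
        rw [hqd, sub_mul, div_mul_cancel₀ _ hden.ne']
        push_cast
        rw [hθ]
        ring
      rw [e1, abs_mul, abs_of_pos hden]
      calc |θ - q| * q.den ≤ 1 / ((n + 1) * q.den) * q.den := by gcongr
        _ = 1 / (n + 1) := by field_simp
        _ ≤ 1 / √(M : ℝ) := by
            apply one_div_le_one_div_of_le hsq0 hnlt
    have h4 : 1 / √(M : ℝ) ≤ (M : ℝ) ^ (-(1 / 4) : ℝ) := by
      rw [Real.sqrt_eq_rpow, ← Real.rpow_zero (M : ℝ), ← Real.rpow_sub hM0]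
      exact Real.rpow_le_rpow_of_exponent_le hMR (by norm_num)
    linarith
  -- Vinogradov's bound
  have hvb : VB M q.den ≤ 3 * (M : ℝ) ^ (1 - c2) := by
    unfold VB
    have h1 : (M : ℝ) / √(q.den : ℝ) ≤ (M : ℝ) ^ (1 - c2) := by
      have h2 : (M : ℝ) ^ (c0 / 4) ≤ √(q.den : ℝ) := by
        rw [show c0 / 4 = c0 / 2 * (1 / 2) by ring, Real.rpow_mul hM0.le, ← Real.sqrt_eq_rpow]
        exact Real.sqrt_le_sqrt hbig.le
      calc (M : ℝ) / √(q.den : ℝ) ≤ (M : ℝ) / (M : ℝ) ^ (c0 / 4) := by gcongr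
        _ = (M : ℝ) ^ (1 - c0 / 4) := by rw [Real.rpow_sub hM0, Real.rpow_one]
        _ ≤ (M : ℝ) ^ (1 - c2) := Real.rpow_le_rpow_of_exponent_le hMR (by linarith)
    have h2 : (M : ℝ) ^ (4 / 5 : ℝ) ≤ (M : ℝ) ^ (1 - c2) :=
      Real.rpow_le_rpow_of_exponent_le hMR (by linarith)
    have h3 : √((M : ℝ) * q.den) ≤ (M : ℝ) ^ (1 - c2) := by
      calc √((M : ℝ) * q.den) ≤ √((M : ℝ) * √(M : ℝ)) :=
            Real.sqrt_le_sqrt (mul_le_mul_of_nonneg_left (hdenn.trans hnle) hM0.le)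
        _ = (M : ℝ) ^ (3 / 4 : ℝ) := by
            rw [Real.sqrt_eq_rpow, Real.sqrt_eq_rpow]
            nth_rewrite 1 [← Real.rpow_one (M : ℝ)]
            rw [← Real.rpow_add hM0, ← Real.rpow_mul hM0.le]
            norm_num
        _ ≤ (M : ℝ) ^ (1 - c2) := Real.rpow_le_rpow_of_exponent_le hMR (by linarith)
    linarith
  set G : ℝ := V * (1 + Real.log M) ^ 7 * (3 * (M : ℝ) ^ (1 - c2)) with hG
  have hlM : 0 ≤ Real.log M := Real.log_nonneg hMR
  have hG0 : 0 ≤ G := by positivity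
  have hSL : ∀ m ≤ M, ‖SL m θ‖ ≤ G := by
    intro m hm
    rcases Nat.eq_zero_or_pos m with h0 | h0
    · subst h0
      unfold SL
      simpa using hG0
    have hm1 : (1 : ℝ) ≤ m := by exact_mod_cast h0
    have hmM : (m : ℝ) ≤ M := by exact_mod_cast hm
    have h1 := hvino m q.den h0 q.den_pos q.num (by
      rw [Int.isCoprime_iff_gcd_eq_one]
      have := q.reduced
      rw [Int.gcd, Int.natAbs_natCast]
      exact this) θ (by
      rw [hqd] at hq1
      refine hq1.trans ?_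
      apply one_div_le_one_div_of_le (by positivity)
      rw [sq]
      apply mul_le_mul_of_nonneg_right _ hden.le
      linarith)
    refine h1.trans ?_
    have h2 : VB (m : ℝ) q.den ≤ VB M q.den := VB_mono (by positivity) hmM hden
    have h3 : Real.log m ≤ Real.log M := Real.log_le_log (by linarith) hmM
    have h4 : 0 ≤ Real.log m := Real.log_nonneg hm1
    have h5 : 0 ≤ VB (m : ℝ) q.den := by unfold VB; positivity
    rw [hG]
    calc V * (1 + Real.log m) ^ 7 * VB m q.den ≤ V * (1 + Real.log M) ^ 7 * VB M q.den := by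
          gcongr
      _ ≤ _ := by gcongr
  have h1 := primes_le M θ G hG0 hSL
  refine h1.trans ?_
  -- the final estimate
  have hp : (1 + Real.log M) ^ 7 ≤ (M : ℝ) ^ (7 * r) := by
    calc (1 + Real.log (M : ℝ)) ^ 7 ≤ ((M : ℝ) ^ r) ^ 7 := by gcongr
      _ = (M : ℝ) ^ (7 * r) := by
          rw [← Real.rpow_natCast, ← Real.rpow_mul hM0.le]
          congr 1
          push_cast
          ring
  have hG1 : 2 * G ≤ 1 / 2 * (M : ℝ) ^ (1 - c2 / 2) := by
    have hV2 : 12 * V ≤ (M : ℝ) ^ r := (le_max_left _ _).trans hl2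
    calc 2 * G = 1 / 2 * ((12 * V) * (1 + Real.log M) ^ 7 * (M : ℝ) ^ (1 - c2)) := by rw [hG]; ring
      _ ≤ 1 / 2 * ((M : ℝ) ^ r * (M : ℝ) ^ (7 * r) * (M : ℝ) ^ (1 - c2)) := by gcongr
      _ = 1 / 2 * (M : ℝ) ^ (r + 7 * r + (1 - c2)) := by
          rw [← Real.rpow_add hM0, ← Real.rpow_add hM0]
      _ ≤ 1 / 2 * (M : ℝ) ^ (1 - c2 / 2) := by
          apply mul_le_mul_of_nonneg_left _ (by norm_num)
          apply Real.rpow_le_rpow_of_exponent_le hMR
          rw [hr]; linarith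
  have hG2 : 2 * (2 * √(M : ℝ) * Real.log M) ≤ 1 / 2 * (M : ℝ) ^ (1 - c2 / 2) := by
    have h8 : (8 : ℝ) ≤ (M : ℝ) ^ r := (le_max_right _ _).trans hl2
    have h9 : Real.log M ≤ (M : ℝ) ^ r := by linarith
    calc 2 * (2 * √(M : ℝ) * Real.log M) = 1 / 2 * (8 * √(M : ℝ) * Real.log M) := by ring
      _ ≤ 1 / 2 * ((M : ℝ) ^ r * (M : ℝ) ^ (1 / 2 : ℝ) * (M : ℝ) ^ r) := by
          rw [Real.sqrt_eq_rpow]
          gcongr
      _ = 1 / 2 * (M : ℝ) ^ (r + 1 / 2 + r) := by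
          rw [← Real.rpow_add hM0, ← Real.rpow_add hM0]
      _ ≤ 1 / 2 * (M : ℝ) ^ (1 - c2 / 2) := by
          apply mul_le_mul_of_nonneg_left _ (by norm_num)
          apply Real.rpow_le_rpow_of_exponent_le hMR
          rw [hr]; linarith
  linarith

end Pool.Agent.Run7.h566.DP
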