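import Pool.Agent.Run7.h566.DP.Prime
import Pool.Agent.Run7.h566.DP.Glue
import Pool.Agent.TH915.PW.APCount

/-!
# The family `y + ξ p` over the primes
-/

set_option autoImplicit false

namespace Pool.Agent.Run7.h566.DP

open Finset Filter Topology
open Pool.Agent.H469R2.NK (e norm_e e_add)

/-- the primes up to `M` -/
def pr (M : ℕ) : Finset ℕ := (Icc 1 M).filter Nat.Prime

theorem prime_sav (ξ : ℝ) (halg : IsAlgebraic ℚ ξ) (hirr : Irrational ξ) (b : ℕ) (hb : 2 ≤ b) :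
    Sav b pr (fun _ _ => True) (fun (y : ℝ) (p : ℕ) => y + p * ξ) := by
  intro D C hC
  obtain ⟨c, hc0, hc1, M0, h⟩ := prime_expo b hb ξ halg hirr D C hC
  refine ⟨c, hc0, hc1, M0, fun M hM k hk lam hlam hne y _ => ?_⟩
  have h1 := h M hM k hk lam hlam hne
  set K : ℤ := ∑ i, lam i * (b : ℤ) ^ (k i) with hK
  have h2 : ∑ m ∈ pr M, e ((K : ℝ) * (y + m * ξ)) =
      e ((K : ℝ) * y) * ∑ p ∈ (Icc 1 M).filter Nat.Prime, e (ξ * (K : ℝ) * p) := by
    rw [mul_sum]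
    refine sum_congr rfl fun m _ => ?_
    rw [← e_add]
    congr 1
    ring
  show ‖∑ m ∈ pr M, e ((K : ℝ) * (y + m * ξ))‖ ≤ _
  rw [h2, norm_mul, norm_e, one_mul]
  exact h1

theorem pr_card (r : ℝ) (hr : 0 < r) : ∀ᶠ M : ℕ in atTop, (M : ℝ) ^ (1 - r) ≤ (pr M).card := by
  classical
  have h0 := Pool.Agent.TH915.PW.card_primes 1 one_pos 1 (by norm_num) 1 (min (r / 2) (1 / 2))
    one_pos le_rfl (by positivity)
  have h1 : Tendsto (fun M : ℕ => (M : ℝ) / 2) atTop atTop :=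
    tendsto_natCast_atTop_atTop.atTop_div_const (by norm_num)
  filter_upwards [h1.eventually h0, ev_rpow_ge (r / 2) 2 (by positivity), eventually_ge_atTop 1]
    with M hM h2 h3
  have hMR : (1 : ℝ) ≤ M := by exact_mod_cast h3
  have hM0 : (0 : ℝ) < M := by linarith
  have h4 : (((Ioc ⌊(M : ℝ) / 2⌋₊ ⌊(1 + 1) * ((M : ℝ) / 2)⌋₊).filter
      (fun p => p.Prime ∧ p ≡ 1 [MOD 1])).card : ℝ) ≤ (pr M).card := by
    refine Nat.cast_le.2 (card_le_card ?_)
    intro p hp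
    rw [mem_filter, mem_Ioc] at hp
    unfold pr
    rw [mem_filter, mem_Icc]
    have e1 : (1 + 1) * ((M : ℝ) / 2) = M := by ring
    rw [e1, Nat.floor_natCast] at hp
    exact ⟨⟨by omega, hp.1.2⟩, hp.2.1⟩
  refine le_trans ?_ (hM.trans h4)
  set ι : ℝ := min (r / 2) (1 / 2) with hι
  have hι1 : ι ≤ r / 2 := min_le_left _ _
  have hι2 : ι ≤ 1 / 2 := min_le_right _ _
  have hι0 : 0 < ι := by rw [hι]; positivity
  rw [Real.div_rpow hM0.le (by norm_num)]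
  rw [le_div_iff₀ (by positivity)]
  have h5 : (2 : ℝ) ^ (1 - ι) ≤ 2 := by
    calc (2 : ℝ) ^ (1 - ι) ≤ (2 : ℝ) ^ (1 : ℝ) :=
          Real.rpow_le_rpow_of_exponent_le (by norm_num) (by linarith)
      _ = 2 := Real.rpow_one _
  calc (M : ℝ) ^ (1 - r) * 2 ^ (1 - ι) ≤ (M : ℝ) ^ (1 - r) * (M : ℝ) ^ (r / 2) := by
        gcongr
        linarith
    _ = (M : ℝ) ^ (1 - r / 2) := by
        rw [← Real.rpow_add hM0]
        congr 1
        ring
    _ ≤ (M : ℝ) ^ (1 - ι) := Real.rpow_le_rpow_of_exponent_le hMR (by linarith)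

end Pool.Agent.Run7.h566.DP
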